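import Mathlib

/-!
# The proposed explicit bound for `σ₃ = σₙ` fails for every `n ≥ 11`

For every `n ≥ 11` the non-decreasing tuple `(1,…,1,2,n-1,c,X)` with `n-4` ones,
`c = (n-2)(3n-5)/2` and `X = σ₃(1,…,1,2,n-1,c)` solves `σ₃ = σₙ`, and its common value
exceeds the proposed bound of degree six in `n`.
-/

namespace Pool.Agent.Results.MP_c4e411_nt.SigmaThreeBound

/-- The `k`-th elementary symmetric polynomial of the entries of `x = (x₁,…,xₙ)`. -/
def sigma {n : ℕ} (k : ℕ) (x : Fin n → ℕ) : ℕ :=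
  ∑ s ∈ Finset.powersetCard k (Finset.univ : Finset (Fin n)), ∏ i ∈ s, x i

lemma esymm_cons (a : ℕ) (s : Multiset ℕ) (k : ℕ) :
    (a ::ₘ s).esymm (k + 1) = s.esymm (k + 1) + a * s.esymm k := by
  simp [Multiset.esymm, Multiset.powersetCard_cons, Multiset.sum_map_mul_left]

lemma esymm_cons3 (a : ℕ) (s : Multiset ℕ) :
    (a ::ₘ s).esymm 3 = s.esymm 3 + a * s.esymm 2 := esymm_cons a s 2

lemma esymm_cons2 (a : ℕ) (s : Multiset ℕ) :
    (a ::ₘ s).esymm 2 = s.esymm 2 + a * s.esymm 1 := esymm_cons a s 1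

lemma esymm_cons1 (a : ℕ) (s : Multiset ℕ) :
    (a ::ₘ s).esymm 1 = s.esymm 1 + a * s.esymm 0 := esymm_cons a s 0

lemma esymm_zero' (s : Multiset ℕ) : s.esymm 0 = 1 := by
  simp [Multiset.esymm]

lemma esymm_replicate (m k : ℕ) : (Multiset.replicate m 1 : Multiset ℕ).esymm k = m.choose k := by
  unfold Multiset.esymm
  have h : (Multiset.powersetCard k (Multiset.replicate m 1)).map Multiset.prod
      = (Multiset.powersetCard k (Multiset.replicate m 1)).map (fun _ => 1) := by
    apply Multiset.map_congr rfl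
    intro t ht
    rw [Multiset.mem_powersetCard] at ht
    have : ∀ a ∈ t, a = 1 := by
      intro a ha
      have := Multiset.mem_of_le ht.1 ha
      exact Multiset.eq_of_mem_replicate this
    exact Multiset.prod_eq_one this
  rw [h]
  simp

/-- the list of entries -/
def L (k : ℕ) (c X : ℕ) : List ℕ := List.replicate (k + 7) 1 ++ [2, k + 10, c, X]

lemma L_length (k c X : ℕ) : (L k c X).length = k + 11 := by
  simp [L]

lemma sigma_get (l : List ℕ) (n j : ℕ) (h : l.length = n) :
    sigma j (fun i : Fin n => l.get (i.cast h.symm)) = (l : Multiset ℕ).esymm j := by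
  subst h
  unfold sigma
  rw [← Finset.esymm_map_val]
  congr 1
  rw [Fin.univ_val_map]
  congr 1
  simp

lemma L_coe (k c X : ℕ) : ((L k c X : List ℕ) : Multiset ℕ)
    = X ::ₘ c ::ₘ (k + 10) ::ₘ 2 ::ₘ Multiset.replicate (k + 7) 1 := by
  unfold L
  rw [← Multiset.coe_add, Multiset.coe_replicate]
  simp only [← Multiset.cons_coe, Multiset.coe_nil]
  rw [Multiset.add_comm]
  simp only [Multiset.cons_add, Multiset.zero_add]
  rw [Multiset.cons_swap 2 (k + 10), Multiset.cons_swap 2 c, Multiset.cons_swap 2 X,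
    Multiset.cons_swap (k + 10) c, Multiset.cons_swap (k + 10) X, Multiset.cons_swap c X]

lemma sigma_top {n : ℕ} (x : Fin n → ℕ) : sigma n x = ∏ i, x i := by
  unfold sigma
  have h : Finset.powersetCard n (Finset.univ : Finset (Fin n)) = {Finset.univ} := by
    have := Finset.powersetCard_self (Finset.univ : Finset (Fin n))
    rwa [Finset.card_univ, Fintype.card_fin] at this
  rw [h]
  simp

lemma prod_get (l : List ℕ) (n : ℕ) (h : l.length = n) :
    ∏ i : Fin n, l.get (i.cast h.symm) = l.prod := by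
  subst h
  rw [← List.prod_ofFn]
  simp

theorem result : ∀ n : ℕ, 11 ≤ n → ∃ x : Fin n → ℕ,
    Monotone x ∧ (∀ i, 0 < x i) ∧ sigma 3 x = sigma n x ∧
    ¬ ((sigma n x : ℚ) ≤ (1 / 12) * (3021 * (n : ℚ) ^ 6 - 77575 * (n : ℚ) ^ 5
        + 920361 * (n : ℚ) ^ 4 - 6235705 * (n : ℚ) ^ 3 + 24764202 * (n : ℚ) ^ 2
        - 53664304 * (n : ℚ) + 48986640)) := by
  intro n hn
  obtain ⟨k, rfl⟩ : ∃ k, n = k + 11 := ⟨n - 11, by omega⟩
  -- c
  obtain ⟨c, hc⟩ : ∃ c, 2 * c = (k + 9) * (3 * k + 28) := by
    have h2 : 2 ∣ (k + 9) * (3 * k + 28) := by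
      rcases Nat.even_or_odd k with h | h
      · exact Dvd.dvd.mul_left (by obtain ⟨t, rfl⟩ := h; omega) _
      · exact Dvd.dvd.mul_right (by obtain ⟨t, rfl⟩ := h; omega) _
    obtain ⟨c, hc⟩ := h2
    exact ⟨c, hc.symm⟩
  obtain ⟨C2, hC2⟩ : ∃ C2, (k + 7).choose 2 = C2 := ⟨_, rfl⟩
  obtain ⟨C3, hC3⟩ : ∃ C3, (k + 7).choose 3 = C3 := ⟨_, rfl⟩
  have e2 : 2 * C2 = (k + 7) * (k + 6) := by
    rw [← hC2, Nat.choose_two_right]
    have : 2 ∣ (k + 7) * (k + 7 - 1) := by
      have := Nat.even_mul_pred_self (k + 7)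
      exact this.two_dvd
    rw [Nat.mul_div_cancel' this]
    rfl
  have e3 : 6 * C3 = (k + 7) * (k + 6) * (k + 5) := by
    have h := Nat.add_one_mul_choose_eq (k + 6) 2
    have h' := Nat.add_one_mul_choose_eq (k + 5) 1
    have h'' : (k + 5).choose 1 = k + 5 := Nat.choose_one_right _
    rw [h''] at h'
    norm_num at h h'
    have hh : (k + 7).choose 3 = C3 := hC3
    rw [hh] at h
    nlinarith
  set X : ℕ := C3 + C2 * (2 + (k + 10) + c) + (k + 7) * (2 * (k + 10) + 2 * c + (k + 10) * c)
      + 2 * (k + 10) * c with hX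
  have hs2 : C2 + (k + 7) * (2 + (k + 10) + c) + 2 * (k + 10) + 2 * c + (k + 10) * c + 1
      = 2 * (k + 10) * c := by
    nlinarith
  have hlen := L_length k c X
  refine ⟨fun i => (L k c X).get (i.cast hlen.symm), ?_, ?_, ?_, ?_⟩
  · -- monotone
    have hp : (L k c X).Pairwise (· ≤ ·) := by
      unfold L
      rw [List.pairwise_append]
      refine ⟨?_, ?_, ?_⟩
      · exact List.pairwise_replicate.2 (Or.inr le_rfl)
      · have h1 : 2 ≤ k + 10 := by omega
        have h2 : k + 10 ≤ c := by nlinarith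
        have h3 : c ≤ X := by
          have : c ≤ 2 * (k + 10) * c := by nlinarith
          omega
        simp only [List.pairwise_cons, List.mem_cons, List.not_mem_nil, or_false, forall_eq_or_imp,
          forall_eq, IsEmpty.forall_iff, implies_true, List.Pairwise.nil, and_true]
        omega
      · intro a ha b hb
        rw [List.mem_replicate] at ha
        obtain ⟨_, rfl⟩ := ha
        have h2 : k + 10 ≤ c := by nlinarith
        have h3 : c ≤ X := by
          have : c ≤ 2 * (k + 10) * c := by nlinarith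
          omega
        simp only [List.mem_cons, List.not_mem_nil, or_false] at hb
        omega
    intro i j hij
    rcases eq_or_lt_of_le hij with rfl | hlt
    · exact le_rfl
    · exact (List.pairwise_iff_get.1 hp) _ _ (by simpa using hlt)
  · intro i
    have hmem := List.get_mem (L k c X) (i.cast hlen.symm)
    have h2 : k + 10 ≤ c := by nlinarith
    have h3 : c ≤ X := by
      have : c ≤ 2 * (k + 10) * c := by nlinarith
      omega
    have : ∀ a ∈ L k c X, 0 < a := by
      intro a ha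
      unfold L at ha
      rw [List.mem_append, List.mem_replicate] at ha
      simp only [List.mem_cons, List.not_mem_nil, or_false] at ha
      omega
    exact this _ hmem
  · rw [sigma_top, prod_get _ _ hlen, sigma_get _ _ _ hlen, L_coe]
    have hprod : (L k c X).prod = 2 * (k + 10) * c * X := by
      unfold L
      simp [List.prod_append]
      ring
    rw [hprod]
    simp only [esymm_cons3, esymm_cons2, esymm_cons1, esymm_zero', esymm_replicate, hC2, hC3,
      Nat.choose_one_right]
    have hX' : C3 + 2 * C2 + (k + 10) * (C2 + 2 * (k + 7))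
        + c * (C2 + 2 * (k + 7) + (k + 10) * (k + 7 + 2 * 1)) = X := by
      rw [hX]; ring
    have hs' : C2 + 2 * (k + 7) + (k + 10) * (k + 7 + 2 * 1)
        + c * (k + 7 + 2 * 1 + (k + 10) * 1) + 1 = 2 * (k + 10) * c := by
      rw [← hs2]; ring
    rw [hX', ← hs']
    ring
  · rw [sigma_top, prod_get _ _ hlen]
    have hprod : (L k c X).prod = 2 * (k + 10) * c * X := by
      unfold L
      simp [List.prod_append]
      ring
    rw [hprod]
    have hcq : (c : ℚ) = (k + 9) * (3 * k + 28) / 2 := by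
      have := congrArg (Nat.cast : ℕ → ℚ) hc
      push_cast at this
      linarith
    have h2q : (C2 : ℚ) = (k + 7) * (k + 6) / 2 := by
      have := congrArg (Nat.cast : ℕ → ℚ) e2
      push_cast at this
      linarith
    have h3q : (C3 : ℚ) = (k + 7) * (k + 6) * (k + 5) / 6 := by
      have := congrArg (Nat.cast : ℕ → ℚ) e3
      push_cast at this
      linarith
    have key : ((2 * (k + 10) * c * X : ℕ) : ℚ)
        = (1 / 12) * (3021 * ((k + 11 : ℕ) : ℚ) ^ 6 - 77575 * ((k + 11 : ℕ) : ℚ) ^ 5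
        + 920361 * ((k + 11 : ℕ) : ℚ) ^ 4 - 6235705 * ((k + 11 : ℕ) : ℚ) ^ 3
        + 24764202 * ((k + 11 : ℕ) : ℚ) ^ 2
        - 53664304 * ((k + 11 : ℕ) : ℚ) + 48986640)
        + 81 / 12 * ((k + 1) * (k + 2) * (k + 3) * (k + 4) * (k + 5) * (k + 6) * (k + 7)) := by
      rw [hX]
      push_cast
      rw [hcq, h2q, h3q]
      ring
    rw [key, not_le]
    have : (0 : ℚ) < 81 / 12 * ((k + 1) * (k + 2) * (k + 3) * (k + 4) * (k + 5) * (k + 6)
        * (k + 7)) := by positivity
    linarith

end Pool.Agent.Results.MP_c4e411_nt.SigmaThreeBound
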